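import Pool.Agent.T2H71.LL.Basic

/-! PACKAGE A1: elementary facts on the finite adeles of `𝔽_q(T)`. -/

open IsDedekindDomain Polynomial
open scoped WithZero

noncomputable section

namespace Pool.Agent.T2H71.LL

variable {Fq : Type} [Field Fq]

/-- A rational function integral at all finite places is a polynomial
(Mathlib: `HeightOneSpectrum.mem_integers_of_valuation_le_one`). -/
theorem exists_poly_of_int (r : RatFunc Fq)
    (h : ∀ v : HeightOneSpectrum Fq[X], v.valuation (RatFunc Fq) r ≤ 1) :
    ∃ p : Fq[X], algebraMap Fq[X] (RatFunc Fq) p = r := by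
  sorry

/-- The valuation of a rational function embedded in the adeles. -/
theorem v_algebraMap (r : RatFunc Fq) (v : HeightOneSpectrum Fq[X]) :
    Valued.v (algebraMap (RatFunc Fq) (Af Fq) r v) = v.valuation (RatFunc Fq) r := by
  sorry

/-- Clearing denominators: only finitely many components of `a` are not integral; multiply by
a product of powers of the corresponding primes. -/
theorem clear_den (a : Af Fq) :
    ∃ N : Fq[X], N ≠ 0 ∧ ∀ v : HeightOneSpectrum Fq[X], Valued.v ((pf N * a) v) ≤ (1 : ℤᵐ⁰) := by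
  sorry

/-- Approximation: `Ô = 𝔽_q[T] + N Ô`.  For each of the finitely many `v ∣ N` choose
`p_v ∈ 𝔽_q[T]` with `|o_v - p_v|_v ≤ |N|_v` (density of `K` in `K_v`,
`HeightOneSpectrum.denseRange_algebraMap`, and `exists_valuation_sub_lt_of_integer`), and `p` by
the Chinese remainder theorem (`IsDedekindDomain.exists_forall_sub_mem_ideal`). -/
theorem approx (N : Fq[X]) (hN : N ≠ 0) (o : Af Fq)
    (ho : ∀ v : HeightOneSpectrum Fq[X], Valued.v (o v) ≤ (1 : ℤᵐ⁰)) :
    ∃ p : Fq[X], ∀ v : HeightOneSpectrum Fq[X],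
      Valued.v ((o - pf p) v) ≤
        v.valuation (RatFunc Fq) (algebraMap Fq[X] (RatFunc Fq) N) := by
  sorry

/-- `Af = K + Ô`. -/
theorem exists_add_int (a : Af Fq) :
    ∃ (r : RatFunc Fq) (o : Af Fq), (∀ v : HeightOneSpectrum Fq[X], Valued.v (o v) ≤ (1 : ℤᵐ⁰)) ∧
      a = algebraMap (RatFunc Fq) (Af Fq) r + o := by
  sorry

/-- Class number one: an idele is a rational function times a unit.  (Induction on the number of
`v` with `|a_v| ≠ 1`; the ideal `v` is generated by a polynomial `P_v` which is a unit at all other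
places.) -/
theorem idele (a : (Af Fq)ˣ) :
    ∃ r : RatFunc Fq, r ≠ 0 ∧ ∀ v : HeightOneSpectrum Fq[X],
      Valued.v (a.1 v) = v.valuation (RatFunc Fq) r := by
  sorry

end Pool.Agent.T2H71.LL
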