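import Pool.Agent.T2H71.LL.AdmBase

/-! PACKAGE K2: the span of the translates of a harmonic function is admissible. -/

open IsDedekindDomain Polynomial
open scoped WithZero

noncomputable section

namespace Pool.Agent.T2H71.LL

variable {Fq : Type} [Field Fq] [Fintype Fq]

/-- Admissibility.  Let `W = trSpan f`, `P` the projection (`exists_avg`) for `trF f (KN N)` and
`Q` the one for `trI f (Km m)`; `P` and `Q` commute with each other (`IsAvg.comm`), and
`W ∩ fixedBy N m` is contained in the image of `Q P`.  `W` is spanned by the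
`rt (h, t) f = rt (1, t) (rt (h, 1) f)`.  `y = P (rt (h, 1) f)` is in `harN N` (`P` commutes with
`GL₂(Kinf)`; if `c ≠ 0` the constant function `1` is in `W` and `P 1 = 1`) so the image of `Q P` is
spanned by the `Q (rt (1, t) y)`, `y ∈ Y := W ∩ harN N` (finite-dimensional).  By `cartan`
`t = κ t_r i`, so `rt (1,t) y = rt (1,κ) rt (1,t_r) y`, and `Q` commutes with `rt (1, κ)`,
`κ ∈ GL₂(O)` (`Km m` is normal there).  The relation `sum` for `y` (constant `c'`) and
`s y = - t_{-1} y` give `y = ∑_b u(b) t_{-1} y + c'`, hence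
`t_{-r} y = ∑_b u(b T^{-r}) t_{-r-1} y - ...c'`, so for `r ≥ m`
`Q (t_{-r} y) = q Q (t_{-r-1} y) + c'` (`u(b T^{-r}) ∈ Km m`): all `Q (t_{-r} y)`, `r ≥ m`, are
in the span of `Q (t_{-m} y)` and `1`.  For `r > 0`, `t_r y = s t_{-r} s y` (up to `Z`)
`= - s t_{-r-1} y`.  So the image of `Q P` is contained in the span of the constants and the
`rt (1, κ) Q (t_{-r} y)` with `0 ≤ r ≤ m + 1`, `y` in a basis of `Y` and `κ` in a (finite) set of
representatives of `GL₂(O)/Km m`. -/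
theorem adm {c : ℂ} {f : GA Fq → ℂ} (hf : Har c f) {N₀ : Fq[X]} (hN₀ : N₀ ≠ 0)
    (hK : ∀ k ∈ KN N₀, ∀ x, f (x * inF k) = f x) {N : Fq[X]} (hN : N ≠ 0) (m : ℕ) :
    FiniteDimensional ℂ ↥(trSpan f ⊓ fixedBy N m) := by
  sorry

theorem autForm_of_mem {c : ℂ} {f : GA Fq → ℂ} (hf : Har c f) {N₀ : Fq[X]} (hN₀ : N₀ ≠ 0)
    (hK : ∀ k ∈ KN N₀, ∀ x, f (x * inF k) = f x) {φ : GA Fq → ℂ} (hφ : φ ∈ trSpan f) :
    IsAutForm φ := by
  sorry

end Pool.Agent.T2H71.LL
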