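import Mathlib

/-! PACKAGE F: general facts on representations (over `ℂ`) of abstract groups. -/

noncomputable section

namespace Pool.Agent.T2H71.LL

section

variable {G V : Type} [Group G] [AddCommGroup V] [Module ℂ V]

/-- A cyclic representation has irreducible quotients: by Zorn's lemma there is a maximal
invariant submodule among those which contain `W₀` and do not contain the cyclic vector `v`. -/
theorem exists_irr_quotient (π : Representation ℂ G V) (v : V)
    (hv : Submodule.span ℂ (Set.range fun g => π g v) = ⊤) (W₀ : Submodule ℂ V)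
    (hW₀ : ∀ g, ∀ x ∈ W₀, π g x ∈ W₀) (hv₀ : v ∉ W₀) :
    ∃ (U : Type) (_ : AddCommGroup U) (_ : Module ℂ U) (τ : Representation ℂ G U)
      (T : V →ₗ[ℂ] U), Function.Surjective T ∧ (∀ g x, T (π g x) = τ g (T x)) ∧
        τ.IsIrreducible ∧ T v ≠ 0 ∧ ∀ x ∈ W₀, T x = 0 := by
  sorry

/-- Irreducibility in elementary terms. -/
theorem irreducible_iff (π : Representation ℂ G V) :
    π.IsIrreducible ↔ (∃ x : V, x ≠ 0) ∧
      ∀ W : Submodule ℂ V, (∀ g, ∀ x ∈ W, π g x ∈ W) → W = ⊥ ∨ W = ⊤ := by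
  sorry

end

section

variable {H V : Type} [Group H] [AddCommGroup V] [Module ℂ V]

/-- Every vector is fixed by a subgroup of finite index. -/
def LocFin (ρ : Representation ℂ H V) : Prop :=
  ∀ x : V, ∃ S : Subgroup H, S.FiniteIndex ∧ ∀ h ∈ S, ρ h x = x

/-- The span of all `h x - x`. -/
def coinv (ρ : Representation ℂ H V) : Submodule ℂ V :=
  Submodule.span ℂ {y | ∃ h x, y = ρ h x - x}

/-- An invariant vector in `coinv` is zero: if `v = ∑ (h_j x_j - x_j)` let `S` be a normal
subgroup of finite index fixing all `x_j`; the map `x ↦ ∑_{c ∈ H/S} c x` on the `S`-fixed vectors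
kills all `h_j x_j - x_j` and multiplies `v` by the index of `S`. -/
theorem inv_coinv (ρ : Representation ℂ H V) (hρ : LocFin ρ) (v : V) (hv : ∀ h, ρ h v = v)
    (hv' : v ∈ coinv ρ) : v = 0 := by
  sorry

/-- `P` is the projection onto the invariants along `coinv`. -/
structure IsAvg (ρ : Representation ℂ H V) (P : V →ₗ[ℂ] V) : Prop where
  inv : ∀ h x, ρ h (P x) = P x
  sub : ∀ x, x - P x ∈ coinv ρ

theorem exists_avg (ρ : Representation ℂ H V) (hρ : LocFin ρ) :
    ∃ P : V →ₗ[ℂ] V, IsAvg ρ P := by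
  sorry

variable {ρ : Representation ℂ H V} {P : V →ₗ[ℂ] V}

theorem IsAvg.fix (hP : IsAvg ρ P) (hρ : LocFin ρ) {x : V} (hx : ∀ h, ρ h x = x) : P x = x := by
  sorry

theorem IsAvg.smul (hP : IsAvg ρ P) (hρ : LocFin ρ) (h : H) (x : V) : P (ρ h x) = P x := by
  sorry

/-- Invariant subspaces are stable under the projection. -/
theorem IsAvg.mem (hP : IsAvg ρ P) (hρ : LocFin ρ) (W : Submodule ℂ V)
    (hW : ∀ h, ∀ x ∈ W, ρ h x ∈ W) {x : V} (hx : x ∈ W) : P x ∈ W := by
  sorry

/-- The projection commutes with maps normalising the action. -/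
theorem IsAvg.comm (hP : IsAvg ρ P) (hρ : LocFin ρ) (T : V →ₗ[ℂ] V)
    (h₁ : ∀ h, ∃ h', ∀ x, T (ρ h x) = ρ h' (T x)) (h₂ : ∀ h', ∃ h, ∀ x, T (ρ h x) = ρ h' (T x))
    (x : V) : P (T x) = T (P x) := by
  sorry

end

end Pool.Agent.T2H71.LL
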