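import Pool.Agent.T2H71.LL.Det
import Pool.Agent.T2H71.LL.Rep

/-! PACKAGE K1: the representation on the span of the translates. -/

open IsDedekindDomain Polynomial
open scoped WithZero

noncomputable section

namespace Pool.Agent.T2H71.LL

variable {Fq : Type} [Field Fq] [Fintype Fq]

theorem rt_mem_trSpan (f : GA Fq → ℂ) (g : GA Fq) {φ : GA Fq → ℂ} (hφ : φ ∈ trSpan f) :
    rt g φ ∈ trSpan f := by
  sorry

/-- The representation of `GL₂(𝔸)` on `trSpan f` by right translations. -/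
def trRep (f : GA Fq → ℂ) : Representation ℂ (GA Fq) (trSpan f) where
  toFun g :=
    { toFun := fun φ => ⟨rt g φ.1, rt_mem_trSpan f g φ.2⟩
      map_add' := fun _ _ => rfl
      map_smul' := fun _ _ => rfl }
  map_one' := by
    ext φ x
    simp [rt]
  map_mul' g h := by
    ext φ x
    simp [rt, mul_assoc]

/-- The action of a subgroup of `GL₂(Af)` on `trSpan f`. -/
def trF (f : GA Fq → ℂ) (S : Subgroup (Gf Fq)) : Representation ℂ S (trSpan f) :=
  (trRep f).comp ((MonoidHom.inl (Gf Fq) (Ginf Fq)).comp S.subtype)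

/-- The action of a subgroup of `GL₂(Kinf)` on `trSpan f`. -/
def trI (f : GA Fq → ℂ) (S : Subgroup (Ginf Fq)) : Representation ℂ S (trSpan f) :=
  (trRep f).comp ((MonoidHom.inr (Gf Fq) (Ginf Fq)).comp S.subtype)

/-- Every element of `trSpan f` is fixed by some level subgroup (`level_conj`, `level_inter`). -/
theorem smooth_of_mem {f : GA Fq → ℂ} {N₀ : Fq[X]} (hN₀ : N₀ ≠ 0) {m₀ : ℕ}
    (hf : f ∈ fixedBy N₀ m₀) {φ : GA Fq → ℂ} (hφ : φ ∈ trSpan f) :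
    ∃ N : Fq[X], N ≠ 0 ∧ ∃ m : ℕ, φ ∈ fixedBy N m := by
  sorry

theorem locFin_trF {f : GA Fq → ℂ} {N₀ : Fq[X]} (hN₀ : N₀ ≠ 0) {m₀ : ℕ}
    (hf : f ∈ fixedBy N₀ m₀) {N : Fq[X]} (hN : N ≠ 0) : LocFin (trF f (KN N)) := by
  sorry

theorem locFin_trI {f : GA Fq → ℂ} {N₀ : Fq[X]} (hN₀ : N₀ ≠ 0) {m₀ : ℕ}
    (hf : f ∈ fixedBy N₀ m₀) (m : ℕ) : LocFin (trI f (Km Fq m)) := by
  sorry

/-- A harmonic function of finite level `N₀` is fixed by `level N₀ 1`. -/
theorem Har.fixedBy {c : ℂ} {f : GA Fq → ℂ} (hf : Har c f) {N₀ : Fq[X]}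
    (hK : ∀ k ∈ KN N₀, ∀ x, f (x * inF k) = f x) : f ∈ fixedBy N₀ 1 := by
  sorry

end Pool.Agent.T2H71.LL
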