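import Pool.Agent.T2H71.LL.Defs

/-!
Basic notation for the packages (elements of `GL₂(Kinf)`, Iwahori subgroup, harmonic functions).
-/

open IsDedekindDomain Polynomial
open scoped WithZero

noncomputable section

namespace Pool.Agent.T2H71.LL

variable {Fq : Type} [Field Fq]

/-- Polynomials as finite adeles. -/
def pf (p : Fq[X]) : Af Fq := algebraMap (RatFunc Fq) (Af Fq) (algebraMap Fq[X] (RatFunc Fq) p)

/-- The ring homomorphism `𝔽_q[T] → Kinf`. -/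
def piHom : Fq[X] →+* Kinf Fq :=
  (algebraMap (RatFunc Fq) (Kinf Fq)).comp (algebraMap Fq[X] (RatFunc Fq))

/-- Polynomials as elements of `Kinf`. -/
def pi (p : Fq[X]) : Kinf Fq := piHom p

/-- `T` as an element of `Kinf`. -/
def Tp : Kinf Fq := pi X

/-- Constants in `Kinf`. -/
def ci (c : Fq) : Kinf Fq := pi (C c)

lemma piHom_injective : Function.Injective (piHom (Fq := Fq)) := by
  unfold piHom
  rw [RingHom.coe_comp]
  exact (algebraMap (RatFunc Fq) (Kinf Fq)).injective.comp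
    (IsFractionRing.injective Fq[X] (RatFunc Fq))

lemma Tp_ne_zero : (Tp : Kinf Fq) ≠ 0 := by
  unfold Tp pi
  rw [map_ne_zero_iff _ piHom_injective]
  exact X_ne_zero

/-- `w = (0,1;1/T,0)`; it normalises the Iwahori subgroup. -/
def wI : Ginf Fq :=
  ⟨!![0, 1; Tp⁻¹, 0], !![0, Tp; 1, 0], by
    ext i j; fin_cases i <;> fin_cases j <;> simp [Matrix.mul_apply, Fin.sum_univ_two, Tp_ne_zero],
    by
    ext i j; fin_cases i <;> fin_cases j <;> simp [Matrix.mul_apply, Fin.sum_univ_two, Tp_ne_zero]⟩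

/-- `s = (0,1;1,0)`. -/
def sI : Ginf Fq :=
  ⟨!![0, 1; 1, 0], !![0, 1; 1, 0], by
    ext i j; fin_cases i <;> fin_cases j <;> simp [Matrix.mul_apply, Fin.sum_univ_two],
    by
    ext i j; fin_cases i <;> fin_cases j <;> simp [Matrix.mul_apply, Fin.sum_univ_two]⟩

/-- `t_r = diag(T^r, 1)`. -/
def tI (r : ℤ) : Ginf Fq :=
  ⟨!![Tp ^ r, 0; 0, 1], !![Tp ^ (-r), 0; 0, 1], by
    have h : (Tp : Kinf Fq) ^ r * Tp ^ (-r) = 1 := by
      rw [← zpow_add₀ Tp_ne_zero]; simp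
    ext i j; fin_cases i <;> fin_cases j <;>
      simp [Matrix.mul_apply, Fin.sum_univ_two, -zpow_neg, h],
    by
    have h : (Tp : Kinf Fq) ^ (-r) * Tp ^ r = 1 := by
      rw [← zpow_add₀ Tp_ne_zero]; simp
    ext i j; fin_cases i <;> fin_cases j <;>
      simp [Matrix.mul_apply, Fin.sum_univ_two, -zpow_neg, h]⟩

/-- `u(b) = (1,b;0,1)`. -/
def uI (b : Kinf Fq) : Ginf Fq :=
  ⟨!![1, b; 0, 1], !![1, -b; 0, 1], by
    ext i j; fin_cases i <;> fin_cases j <;> simp [Matrix.mul_apply, Fin.sum_univ_two],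
    by
    ext i j; fin_cases i <;> fin_cases j <;> simp [Matrix.mul_apply, Fin.sum_univ_two]⟩

/-- The group `Z · I` (scalars times the Iwahori subgroup): matrices `(a,b;c,d)` with
`|a| = |d|`, `|b| ≤ |a|`, `|c| < |a|`. -/
def IZ : Set (Ginf Fq) :=
  {g | Valued.v (g.1 0 0) = (Valued.v (g.1 1 1) : ℤᵐ⁰) ∧
    Valued.v (g.1 0 1) ≤ (Valued.v (g.1 0 0) : ℤᵐ⁰) ∧
    Valued.v (g.1 1 0) < (Valued.v (g.1 0 0) : ℤᵐ⁰)}

/-- The Iwahori subgroup (as a set): `|a| = |d| = 1`, `|b| ≤ 1`, `|c| < 1`. -/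
def Iw : Set (Ginf Fq) := {g | g ∈ IZ ∧ Valued.v (g.1 0 0) = (1 : ℤᵐ⁰)}

/-- The group `Z · GL₂(O)`: matrices with all entries of absolute value `≤ r` and `|det| = r²`
for some `r`. -/
def KZ : Set (Ginf Fq) :=
  {g | ∃ r : ℤᵐ⁰, (∀ i j, Valued.v (g.1 i j) ≤ r) ∧ Valued.v g.1.det = r ^ 2}

/-- The embedding of `GL₂(𝔽_q[T])` in `GL₂(K)`. -/
def gK (γ : GL (Fin 2) Fq[X]) : GL (Fin 2) (RatFunc Fq) :=
  Matrix.GeneralLinearGroup.map (algebraMap Fq[X] (RatFunc Fq)) γ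

/-- The embedding of `GL₂(𝔽_q[T])` in `GL₂(Kinf)`. -/
def gi (γ : GL (Fin 2) Fq[X]) : Ginf Fq := Matrix.GeneralLinearGroup.map piHom γ

/-- Embedding of `GL₂(Af)` in `GL₂(𝔸)`. -/
def inF (g : Gf Fq) : GA Fq := (g, 1)

/-- Embedding of `GL₂(Kinf)` in `GL₂(𝔸)`. -/
def inI (g : Ginf Fq) : GA Fq := (1, g)

/-- Functions on `GL₂(K)\GL₂(𝔸)/(Z I)` which are harmonic up to the constant `c`
(`c = 0`: harmonic cochains, Steinberg at infinity). -/
structure Har [Fintype Fq] (c : ℂ) (φ : GA Fq → ℂ) : Prop where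
  left : ∀ (γ : GL (Fin 2) (RatFunc Fq)) (x : GA Fq), φ (dg γ * x) = φ x
  iz : ∀ i ∈ IZ, ∀ x, φ (x * inI i) = φ x
  w : ∀ x, φ (x * inI wI) = -φ x
  sum : ∀ x, φ x + ∑ b : Fq, φ (x * inI (uI (ci b) * sI)) = c

end Pool.Agent.T2H71.LL
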