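import Pool.Agent.T2H71.LL.Sums

/-! PACKAGE D3: decompositions of `GL₂(Kinf)`. -/

open IsDedekindDomain Polynomial
open scoped WithZero

noncomputable section

namespace Pool.Agent.T2H71.LL

variable {Fq : Type} [Field Fq]

/-! ### Decompositions of `GL₂(Kinf)` -/

/-- Iwahori-Bruhat decomposition `GL₂(Kinf) = ⋃ I t_r {1, w} Z I`.  Proof: let `M` be the maximum
of the absolute values of the four entries of `t`; choose a pivot of absolute value `M`, in the
order of preference `(1,0)`, then `(0,0)`, `(1,1)`, and `(0,1)` last.  The other entries of the row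
and of the column of the pivot can be cleared by unipotent matrices in `I`
(`u(b)`, `|b| ≤ 1`, and lower unipotents with entry `|c| < 1`); the result is
`diag(x, y) = t_r · (element of Z I)` or antidiagonal `= t_r w · (element of Z I)`. -/
theorem iwahori_bruhat (t : Ginf Fq) :
    ∃ i ∈ (Iw : Set (Ginf Fq)), ∃ r : ℤ, ∃ i' ∈ (IZ : Set (Ginf Fq)),
      t = i * tI r * i' ∨ t = i * tI r * wI * i' := by
  sorry

/-- Iwasawa decomposition `GL₂(Kinf) = ⋃ u(y) t_r Z GL₂(O)`. -/
theorem iwasawa (t : Ginf Fq) :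
    ∃ (y : Kinf Fq) (r : ℤ), ∃ κ ∈ (KZ : Set (Ginf Fq)), t = uI y * tI r * κ := by
  sorry

/-- Cartan decomposition (needed for admissibility): `GL₂(Kinf) = ⋃ GL₂(O) t_r Z I`, `r ∈ ℤ`
(from `iwahori_bruhat`, using `t_r w = t_{r+1} · (t_{-1} w)`, or directly from `KZ_cover`:
every element is `κ t_r κ'`, and `κ' ∈ Z I` or `κ' ∈ u(b) s Z I`;
`t_r w = t_{r} s t_{1} ·(…)`: note `w = s t_{-1}` up to `Z`, so `t_r w = s t_{-r-1}` up to `Z`). -/
theorem cartan (t : Ginf Fq) :
    ∃ κ ∈ Km Fq 0, ∃ r : ℤ, ∃ i ∈ (IZ : Set (Ginf Fq)), t = κ * tI r * i := by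
  sorry

end Pool.Agent.T2H71.LL
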