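import Pool.Agent.T2H71.LL.Period

/-! PACKAGE L3: vanishing of the constant terms. -/

open IsDedekindDomain Polynomial
open scoped WithZero

noncomputable section

namespace Pool.Agent.T2H71.LL

variable {Fq : Type} [Field Fq] [Fintype Fq]

/-- All constant terms vanish.  `c(x) = mean (a ↦ f (n(a) x))` satisfies (by `mean_comp`, with
`structB`) `c(γ x) = c(x)` for `γ ∈ B(K)`, `c(n(b) x) = c(x)`, `c(x i) = c(x)`, `c(x w) = - c(x)`,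
`c(x) + ∑_b c(x u(b) s) = 0`.  By `structB` we need `c(k, t_m) = 0` for `k ∈ GL₂(Ô)`, `m ∈ ℤ`.
For `m ≥ 1` the function `a ↦ f (n(a) (k, t_m))` vanishes identically: `a = r + (o, y)`
(`adele_split`), `n(a) (k, t_m) = n(r) (n(o) k, t_m u(T^{-m} y))`.  And
`t_m u(b) s = u(b T^m) t_{m-1} w⁻¹`, so `c(k, t_m) = q c(k, t_{m-1})`; hence
`c(k, t_m) = 0` for all `m ∈ ℤ`. -/
theorem mean_zero_of_har {f : GA Fq → ℂ} (hf : Har 0 f) {N₀ : Fq[X]} (hN₀ : N₀ ≠ 0)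
    (hK : ∀ k ∈ KN N₀, ∀ x, f (x * inF k) = f x)
    (h0 : ∀ k ∈ KN (1 : Fq[X]), ∀ m : ℕ, 1 ≤ m → f (k, tI m) = 0) (x : GA Fq) :
    mean (fun a => f (un a * x)) = 0 := by
  sorry

/-- The constant terms of all elements of `trSpan f` vanish. -/
theorem constTermZero_of_mem {f : GA Fq → ℂ} (hf : Har 0 f) {N₀ : Fq[X]} (hN₀ : N₀ ≠ 0)
    (hK : ∀ k ∈ KN N₀, ∀ x, f (x * inF k) = f x)
    (h0 : ∀ k ∈ KN (1 : Fq[X]), ∀ m : ℕ, 1 ≤ m → f (k, tI m) = 0)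
    {φ : GA Fq → ℂ} (hφ : φ ∈ trSpan f) (x : GA Fq) : ConstTermZero φ x := by
  sorry

end Pool.Agent.T2H71.LL
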