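import Pool.Agent.T2H71.LL.Ray

/-! PACKAGE I1: the function `H` on `GL₂(Ô)`. -/

open IsDedekindDomain Polynomial
open scoped WithZero

noncomputable section

namespace Pool.Agent.T2H71.LL

variable {Fq : Type} [Field Fq] [Fintype Fq]

/-- PACKAGE I1. The function `H` on `GL₂(Ô)` (extended by `0`).  Let `Y₀ = (0, n; 1, 1)` with
`x² - x - n` without roots in `𝔽_q` (`x ↦ x² - x` is not injective, so not surjective), `ψ` a
nontrivial additive character of `𝔽_q`.  By `approx` every `k ∈ GL₂(Ô)` is congruent to a unique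
`k₀ + T k₁` modulo `T²`, `k₀ ∈ GL₂(𝔽_q)`, `k₁ ∈ M₂(𝔽_q)`.  Put
`H(k) = φ(k₀) ψ(tr(k₁ Y₀ k₀⁻¹))`, `φ(g) = q` if the lower left entry of `g` is `0`, else `-1`.
(1) For `σ ∈ GL₂(𝔽_q)`, `H(σ k) = φ(σ k₀) ψ(tr(k₁ Y₀ k₀⁻¹))`, so `H` is left invariant under upper
triangular `σ`, and the sum over `σ⁻¹`, `σ ∈ {1, u(b) s}`, vanishes
(`σ⁻¹ k₀` is upper triangular for exactly one of the `q + 1` representatives `σ`).
(2) `H(u(c T) k) = ψ(c tr(E₁₂ k₀ Y₀ k₀⁻¹)) H(k)` and the entry `(k₀ Y₀ k₀⁻¹)₂₁ ≠ 0` since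
`Y₀` has no eigenvalue in `𝔽_q`; so the sum over `c` vanishes. -/
theorem exists_H :
    ∃ H : Gf Fq → ℂ,
      (∀ k ∈ KN (1 : Fq[X]), ∀ u ∈ KN ((X : Fq[X]) ^ 2), H (k * u) = H k) ∧
      (∀ γ : GL (Fin 2) Fq[X], (∀ i j, ∃ c : Fq, γ.1 i j = C c) → γ.1 1 0 = 0 →
        ∀ k ∈ KN (1 : Fq[X]),
          H (Matrix.GeneralLinearGroup.map (algebraMap (RatFunc Fq) (Af Fq)) (gK γ) * k) = H k) ∧
      (∀ k ∈ KN (1 : Fq[X]), ∀ s : GL (Fin 2) Fq[X], s.1 = !![0, 1; 1, 0] →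
        H k + ∑ b : Fq,
          H (Matrix.GeneralLinearGroup.map (algebraMap (RatFunc Fq) (Af Fq))
            (gK (s * uK (C b))) * k) = 0) ∧
      (∀ k ∈ KN (1 : Fq[X]), ∑ c : Fq,
        H (Matrix.GeneralLinearGroup.map (algebraMap (RatFunc Fq) (Af Fq))
          (gK (uK (C c * X))) * k) = 0) ∧
      ∃ k ∈ KN (1 : Fq[X]), H k ≠ 0 := by
  sorry

end Pool.Agent.T2H71.LL
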