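import Pool.Agent.T2H71.LL.Struct
import Pool.Agent.T2H71.LL.CusH

/-! PACKAGE I2: the cuspidal form. -/

open IsDedekindDomain Polynomial
open scoped WithZero

noncomputable section

namespace Pool.Agent.T2H71.LL

variable {Fq : Type} [Field Fq] [Fintype Fq]

/-- PACKAGE I2. From `H` to `f`.  Let `f₊ (x) = H k` if `x = γ (k, i)` with `γ ∈ GL₂(K)`,
`k ∈ GL₂(Ô)`, `i ∈ IZ`, and `0` if `x` is not of this form.  Well defined: if
`γ (k, i) = γ' (k', i')` then `δ = γ'⁻¹ γ ∈ GL₂(𝔽_q[T])` (`exists_gK`), `gi δ ∈ IZ`, so `δ` is upper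
triangular with constant entries (`|det| = 1`, so all entries have absolute value `≤ 1`), and
`k' = δ k`.  Put `f x = f₊ x - f₊ (x w)`.
* `left`, `iz` clear, `w`: `w² ∈ IZ`.
* `sum`: (a) `∑_κ f₊(x κ) = 0` over `κ ∈ {1, u(b) s}`: if some `x κ₀ = γ (k, i)` then
  `x κ = γ (k, κ' κ)` with `κ' ∈ KZ`, by `sum_reps` the sum is
  `f₊(k, 1) + ∑_b f₊(k, u(b) s) = H(k) + ∑_b H((u(b) s)⁻¹ k)`, zero by the third property of `H`.
  (b) `∑_κ f₊(x κ w) = 0`: if some `x κ₀ w = γ (k, i)` then `x κ w = γ (k, w⁻¹ κ'' κ w)` with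
  `κ'' ∈ KZ`; `κ ↦ f₊(k, w⁻¹ κ w)` is right `IZ`-invariant, so by `sum_reps` and
  `sum_reps_lower` the sum is `f₊(k, w⁻¹ s w) + ∑_c f₊(k, w⁻¹ (s u(c) s) w)` and
  `w⁻¹ s u(c) s w = u(c T)` (`w_lower`), `f₊(k, u(c T)) = H(u(-c T) k)`: sum zero by the
  fourth property.  `f₊(k, w⁻¹ s w) = 0`: `w⁻¹ s w = (0, T; 1/T, 0)`; if `= δ i` with
  `δ ∈ GL₂(𝔽_q[T])` and `i ∈ IZ` then `δ = (0, T; 1/T, 0) i⁻¹` has bottom row of absolute value
  `1/q` times that of the first row of `i⁻¹`: both entries are polynomials of absolute value `< 1`,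
  so zero; contradiction.
* values: `f(k, 1) = H(k) - f₊(k, w) = H(k)`: `(k, w) = γ (k', i)` is impossible by the parity of
  the valuation of the determinant at infinity.
* `f(k, t_m) = 0` for `m ≥ 1`: `f₊(k, t_m) = 0`: if `δ⁻¹ t_m ∈ IZ`, i.e. `t_m = δ i`, then
  `i = δ⁻¹ t_m` has first column divisible by `T^m`... precisely `δ⁻¹ = i t_{-m}`; with
  `|i₀₀| = |i₁₁| = ρ`, `ρ² = q^m`, the first column of `i t_{-m}` has absolute values
  `≤ ρ q^{-m} < 1`, so it is zero, contradiction.  `f₊(k, t_m w) = 0`: `δ⁻¹ = i w⁻¹ t_{-m}`,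
  `w⁻¹ t_{-m} = (0, T; T^{-m}, 0)`, `ρ² = q^{m-1}`: the first column is
  `T^{-m} (i₀₁, i₁₁)` of absolute value `≤ q^{(m-1)/2 - m} < 1`, contradiction. -/
theorem exists_cus :
    ∃ f : GA Fq → ℂ, Har 0 f ∧
      (∀ k ∈ KN ((X : Fq[X]) ^ 2), ∀ x, f (x * inF k) = f x) ∧ f ≠ 0 ∧
      ∀ k ∈ KN (1 : Fq[X]), ∀ m : ℕ, 1 ≤ m → f (k, tI m) = 0 := by
  sorry

end Pool.Agent.T2H71.LL
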