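import Pool.Agent.T2H71.LL.Adele

/-! PACKAGE A2: `GL₂(Af) = B(K) GL₂(Ô)`. -/

open IsDedekindDomain Polynomial
open scoped WithZero

noncomputable section

namespace Pool.Agent.T2H71.LL

variable {Fq : Type} [Field Fq]

/-- `GL₂(Af) = B(K) GL₂(Ô)`, `B` upper triangular.  Proof: let `(x, y)` be the bottom row of `g`.
There is an idele `d` with `|d_v| = max |x_v| |y_v|` for all `v` (take `d_v = x_v` or `y_v`; almost
all components have `max = 1`), by `idele` we may take `d = δ ∈ K`.  Then `(x/δ, y/δ)` is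
integral and primitive everywhere, so it is the bottom row of some `k ∈ GL₂(Ô)`
(`k_v = (y'⁻¹, 0; x', y')` where `|y'_v| = 1`, and `(0, -x'⁻¹; x', y')` elsewhere).  `g k⁻¹` has
bottom row `(0, δ)`, i.e. it is `(a, b; 0, δ)` with an idele `a = α u` (`α ∈ K`, `u` a unit);
multiply by `diag(u⁻¹, 1)` on the right: `(α, b; 0, δ)`, and write `b / α = β + o`
(`exists_add_int`): `(α, b; 0, δ) = (α, α β; 0, δ) (1, o; 0, 1)`. -/
theorem decompFin (g : Gf Fq) :
    ∃ γ : GL (Fin 2) (RatFunc Fq), γ.1 1 0 = 0 ∧ ∃ k ∈ congrFin (1 : Fq[X]),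
      g = Matrix.GeneralLinearGroup.map (algebraMap (RatFunc Fq) (Af Fq)) γ * k := by
  sorry

end Pool.Agent.T2H71.LL
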