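import Mathlib

/-!
# Smooth and automorphic representations of `GL₂` over `𝔽_q(T)`: definitions

`Fq` is a finite field, `K = 𝔽_q(T)` (`RatFunc Fq`), `Af` the ring of finite adeles of `K`
(restricted product over all monic irreducible polynomials, Mathlib's `FiniteAdeleRing`),
`Kinf = 𝔽_q((1/T))` the completion of `K` at its infinite place (Mathlib's
`RatFunc.CompletionAtInfty`).  The adele ring of `K` is `Af × Kinf` and
`GL₂(𝔸_K) = GL₂(Af) × GL₂(Kinf)` (`GA`).
-/

open IsDedekindDomain Polynomial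
open scoped WithZero

noncomputable section

namespace Pool.Agent.T2H71.LL

/-! ## Local side -/

section Local

variable (L : Type) [Field L] [Valued L ℤᵐ⁰]

/-- The principal congruence subgroup of level `m` of `GL₂(L)`, `L` a local field whose
valuation is normalised by `v(uniformizer) = exp (-1)`.  For `m = 0` it is `GL₂(O_L)`; these
sets (for varying `m`) form a basis of neighbourhoods of `1`. -/
def congr (m : ℕ) : Set (GL (Fin 2) L) :=
  {g | Valued.v (g.1.det) = (1 : ℤᵐ⁰) ∧
    ∀ i j, Valued.v (g.1 i j - (1 : Matrix (Fin 2) (Fin 2) L) i j) ≤ (WithZero.exp (-(m : ℤ)) : ℤᵐ⁰)}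

/-- An irreducible smooth complex representation of `GL₂(L)`. -/
structure IrrRep where
  /-- the space -/
  V : Type
  [acg : AddCommGroup V]
  [mod : Module ℂ V]
  /-- the action -/
  ρ : Representation ℂ (GL (Fin 2) L) V
  irr : ρ.IsIrreducible
  smooth : ∀ x : V, ∃ m : ℕ, ∀ g ∈ congr L m, ρ g x = x

attribute [instance] IrrRep.acg IrrRep.mod

variable {L}

/-- Isomorphism of representations. -/
def IrrRep.Iso (σ τ : IrrRep L) : Prop :=
  ∃ e : σ.V ≃ₗ[ℂ] τ.V, ∀ g x, e (σ.ρ g x) = τ.ρ g (e x)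

/-- `σ` is unramified: it has a nonzero vector fixed by `GL₂(O_L)`. -/
def IrrRep.Unramified (σ : IrrRep L) : Prop :=
  ∃ x : σ.V, x ≠ 0 ∧ ∀ g ∈ congr L 0, σ.ρ g x = x

variable (L)

instance IrrRep.setoid : Setoid (IrrRep L) where
  r := IrrRep.Iso
  iseqv := by
    refine ⟨fun σ => ⟨LinearEquiv.refl ℂ _, fun _ _ => rfl⟩, ?_, ?_⟩
    · rintro σ τ ⟨e, he⟩
      refine ⟨e.symm, fun g x => ?_⟩
      apply e.injective
      rw [he]
      simp
    · rintro σ τ υ ⟨e, he⟩ ⟨f, hf⟩
      exact ⟨e.trans f, fun g x => by simp [he, hf]⟩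

/-- `Irr(GL₂(L))`: isomorphism classes of irreducible smooth representations of `GL₂(L)`. -/
def Irr : Type 1 := Quotient (IrrRep.setoid L)

end Local

/-! ## Global side -/

section Global

variable (Fq : Type) [Field Fq]

/-- Finite adeles of `𝔽_q(T)`. -/
abbrev Af : Type := FiniteAdeleRing Fq[X] (RatFunc Fq)

/-- The completion `𝔽_q((1/T))` of `𝔽_q(T)` at infinity. -/
abbrev Kinf : Type := @RatFunc.CompletionAtInfty Fq _ (Classical.decEq _)

/-- `GL₂` of the finite adeles. -/
abbrev Gf : Type := GL (Fin 2) (Af Fq)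

/-- `GL₂(𝔽_q((1/T)))`. -/
abbrev Ginf : Type := GL (Fin 2) (Kinf Fq)

/-- `GL₂(𝔸_K) = GL₂(Af) × GL₂(Kinf)`. -/
abbrev GA : Type := Gf Fq × Ginf Fq

variable {Fq}

/-- The diagonal embedding `GL₂(K) → GL₂(𝔸_K)`. -/
def dg (γ : GL (Fin 2) (RatFunc Fq)) : GA Fq :=
  (Matrix.GeneralLinearGroup.map (algebraMap (RatFunc Fq) (Af Fq)) γ,
    Matrix.GeneralLinearGroup.map (algebraMap (RatFunc Fq) (Kinf Fq)) γ)

/-- The unipotent matrix with upper right entry `a ∈ 𝔸_K`. -/
def un (a : Af Fq × Kinf Fq) : GA Fq :=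
  (Matrix.GeneralLinearGroup.upperRightHom a.1, Matrix.GeneralLinearGroup.upperRightHom a.2)

/-- The principal congruence subgroup of level `N` of `GL₂(Ô)`, `Ô ⊆ Af` the ring of integral
adeles: matrices `g` with determinant a unit at all finite places and `g ≡ 1 mod N Ô`. -/
def congrFin (N : Fq[X]) : Set (Gf Fq) :=
  {g | (∀ v : HeightOneSpectrum Fq[X], Valued.v (g.1.det v) = (1 : ℤᵐ⁰)) ∧
    ∀ i j, ∀ v : HeightOneSpectrum Fq[X],
      Valued.v ((g.1 i j - (1 : Matrix (Fin 2) (Fin 2) (Af Fq)) i j) v) ≤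
        v.valuation (RatFunc Fq) (algebraMap Fq[X] (RatFunc Fq) N)}

/-- The compact open subgroup of level `(N, m)` of `GL₂(𝔸_K)`. -/
def level (N : Fq[X]) (m : ℕ) : Set (GA Fq) :=
  {u | u.1 ∈ congrFin N ∧ u.2 ∈ congr (Kinf Fq) m}

/-- Right translation of functions on `GL₂(𝔸_K)`. -/
def rt (g : GA Fq) (φ : GA Fq → ℂ) : GA Fq → ℂ := fun x => φ (x * g)

/-- The span of all right translates of `φ`. -/
def trSpan (φ : GA Fq → ℂ) : Submodule ℂ (GA Fq → ℂ) :=
  Submodule.span ℂ (Set.range fun g => rt g φ)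

/-- The functions invariant under right translation by the level subgroup. -/
def fixedBy (N : Fq[X]) (m : ℕ) : Submodule ℂ (GA Fq → ℂ) where
  carrier := {φ | ∀ u ∈ level N m, ∀ x, φ (x * u) = φ x}
  add_mem' := fun {a b} ha hb u hu x => by
    simp only [Pi.add_apply]; rw [ha u hu x, hb u hu x]
  zero_mem' := fun _ _ _ => rfl
  smul_mem' := fun c a ha u hu x => by
    simp only [Pi.smul_apply]; rw [ha u hu x]

/-- Automorphic forms on `GL₂(𝔸_K)`: functions which are left `GL₂(K)`-invariant, right invariant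
under a compact open subgroup, and whose right translates span an admissible representation. -/
structure IsAutForm (φ : GA Fq → ℂ) : Prop where
  left : ∀ (γ : GL (Fin 2) (RatFunc Fq)) (x : GA Fq), φ (dg γ * x) = φ x
  smooth : ∃ N : Fq[X], N ≠ 0 ∧ ∃ m : ℕ, φ ∈ fixedBy N m
  admissible : ∀ N : Fq[X], N ≠ 0 → ∀ m : ℕ,
    FiniteDimensional ℂ ↥(trSpan φ ⊓ fixedBy N m)

/-- The constant term `∫_{K\𝔸} φ(n(a) x) da` vanishes.  For a left `GL₂(K)`-invariant smooth `φ`
the function `a ↦ φ(n(a) x)` on the compact group `K\𝔸` is locally constant, so it is periodic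
under a subgroup `Q` of finite index of `𝔸`, and the integral is the average over `𝔸/Q`. -/
def ConstTermZero (φ : GA Fq → ℂ) (x : GA Fq) : Prop :=
  ∃ Q : AddSubgroup (Af Fq × Kinf Fq), Q.FiniteIndex ∧
    (∀ b ∈ Q, ∀ a, φ (un (a + b) * x) = φ (un a * x)) ∧
    ∑ᶠ c : (Af Fq × Kinf Fq) ⧸ Q, φ (un c.out * x) = 0

/-- Cusp forms on `GL₂(𝔸_K)`. -/
structure IsCuspForm (φ : GA Fq → ℂ) : Prop extends IsAutForm φ where
  cusp : ∀ x, ConstTermZero φ x

variable {V : Type} [AddCommGroup V] [Module ℂ V]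

/-- `π` is a quotient of a space `W` of functions stable under right translations all of whose
elements satisfy `P` (that is, a subquotient of the space of all functions satisfying `P`). -/
def IsSubquotient (P : (GA Fq → ℂ) → Prop) (π : Representation ℂ (GA Fq) V) : Prop :=
  ∃ W : Submodule ℂ (GA Fq → ℂ), (∀ g, ∀ φ ∈ W, rt g φ ∈ W) ∧ (∀ φ ∈ W, P φ) ∧
    ∃ T : W →ₗ[ℂ] V, Function.Surjective T ∧
      ∀ (g : GA Fq) (φ ψ : W), (ψ : GA Fq → ℂ) = rt g φ → T ψ = π g (T φ)

/-- Automorphic representations of `GL₂(𝔸_K)`: irreducible subquotients of the space of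
automorphic forms. -/
def IsAutomorphic (π : Representation ℂ (GA Fq) V) : Prop :=
  π.IsIrreducible ∧ IsSubquotient IsAutForm π

/-- Cuspidal automorphic representations. -/
def IsCuspidal (π : Representation ℂ (GA Fq) V) : Prop :=
  π.IsIrreducible ∧ IsSubquotient IsCuspForm π

/-- The two kinds of isobaric automorphic representations of `GL₂(𝔸_K)` we need: cuspidal ones
(`Λ = Π₁`), and one-dimensional ones `χ ∘ det = χ|·|^(1/2) ⊞ χ|·|^(-1/2)`. -/
def IsIsobaric₁ (Λ : Representation ℂ (GA Fq) V) : Prop :=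
  IsCuspidal Λ ∨ (IsAutomorphic Λ ∧ Module.finrank ℂ V = 1)

/-- `σ` is the local component at infinity of `π = ⊗ π_v`: the restriction of `π` to
`GL₂(Kinf)` is `σ`-isotypic (a sum of copies of `σ`). -/
def IsCompInf (π : Representation ℂ (GA Fq) V) (σ : IrrRep (Kinf Fq)) : Prop :=
  ⨆ T : {T : σ.V →ₗ[ℂ] V // ∀ (g : Ginf Fq) (x : σ.V), T (σ.ρ g x) = π (1, g) (T x)},
    LinearMap.range T.1 = ⊤

/-- Evaluation of a finite adele at `v`. -/
def evalAt (v : HeightOneSpectrum Fq[X]) : Af Fq →+* v.adicCompletion (RatFunc Fq) where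
  toFun a := a v
  map_one' := rfl
  map_mul' _ _ := rfl
  map_zero' := rfl
  map_add' _ _ := rfl

/-- `σ` is the local component at the finite place `v` of `π = ⊗ π_v`: the restriction of `π` to
`GL₂(K_v)` (the elements of `GL₂(Af)` which are `1` at all other places) is `σ`-isotypic. -/
def IsCompFin (v : HeightOneSpectrum Fq[X]) (π : Representation ℂ (GA Fq) V)
    (σ : IrrRep (v.adicCompletion (RatFunc Fq))) : Prop :=
  ⨆ T : {T : σ.V →ₗ[ℂ] V // ∀ g : Gf Fq,
      (∀ w, w ≠ v → Matrix.GeneralLinearGroup.map (evalAt w) g = 1) →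
      ∀ x : σ.V, T (σ.ρ (Matrix.GeneralLinearGroup.map (evalAt v) g) x) = π (g, 1) (T x)},
    LinearMap.range T.1 = ⊤

variable {V' : Type} [AddCommGroup V'] [Module ℂ V']

/-- `Λ` is a global lifting of `π` for `ρ = id : GL₂(ℂ) → GL₂(ℂ)`: at every place where `π` is
unramified, `Λ` has the same local component as `π`. -/
def IsGlobalLift (π : Representation ℂ (GA Fq) V) (Λ : Representation ℂ (GA Fq) V') : Prop :=
  (∀ σ : IrrRep (Kinf Fq), IsCompInf π σ → σ.Unramified → IsCompInf Λ σ) ∧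
  ∀ (v : HeightOneSpectrum Fq[X]) (σ : IrrRep (v.adicCompletion (RatFunc Fq))),
    IsCompFin v π σ → σ.Unramified → IsCompFin v Λ σ

variable (Fq) in
/-- The assertion of Q1 for the local field `F = Kinf = 𝔽_q((1/T))`, `G = GL₂`, `ρ = id`, required
only for the global field `K = 𝔽_q(T)`, its infinite place, and the two kinds of isobaric
representations of `IsIsobaric₁`: there is a map `l` from `Irr(GL₂(F))` to itself such that for
every automorphic representation `π` of `GL₂(𝔸_K)` with global lifting `Λ`, the component of `Λ`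
at infinity is the image under `l` of the component of `π` at infinity. -/
def LocalLifting : Prop :=
  ∃ l : Irr (Kinf Fq) → Irr (Kinf Fq),
    ∀ (V V' : Type) [AddCommGroup V] [Module ℂ V] [AddCommGroup V'] [Module ℂ V']
      (π : Representation ℂ (GA Fq) V) (Λ : Representation ℂ (GA Fq) V'),
      IsAutomorphic π → IsIsobaric₁ Λ → IsGlobalLift π Λ →
      ∀ σ τ : IrrRep (Kinf Fq), IsCompInf π σ → IsCompInf Λ τ →
        l (Quotient.mk _ σ) = Quotient.mk _ τ

end Global

end Pool.Agent.T2H71.LL
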