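import Pool.Agent.T2H71.LL.Struct

/-! PACKAGE J: harmonic functions are determined by their values at `(k, 1)`. -/

open IsDedekindDomain Polynomial
open scoped WithZero

noncomputable section

namespace Pool.Agent.T2H71.LL

variable {Fq : Type} [Field Fq] [Fintype Fq]

/-- Proof: put `H_n(k) = φ(k, t_n)`.  By `structE`, `iz` and `w` it is enough that all `H_n`
vanish on `GL₂(Ô)`.  For `n ≥ 1` the relation `sum` at `(k, t_n)` reads
`H_n(k) = -∑_b φ(k, t_n u(b) s)`, and `t_n u(b) s = u(b T^n) t_{n-1} w⁻¹`, so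
`φ(k, t_n u(b) s) = φ(u(-b T^n) k, t_{n-1} w⁻¹) = - H_{n-1}(u(-b T^n) k)` (left invariance under
`u(b T^n) ∈ GL₂(𝔽_q[T])`): `H_n(k) = ∑_b H_{n-1}(u(-b T^n) k)`.  Induction. -/
theorem har_zero {φ : GA Fq → ℂ} (h : Har 0 φ)
    (h0 : ∀ k ∈ KN (1 : Fq[X]), φ (k, 1) = 0) : φ = 0 := by
  sorry

/-- Uniqueness of the form of level one with given constant: the difference of two such forms
satisfies `Har 0`, and `φ(k, 1) = φ(1, 1)` for `k ∈ GL₂(Ô)`; the relation `sum` at `(1, 1)` reads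
`(q + 1) φ(1, 1) = 0` because `u(b) s ∈ GL₂(𝔽_q)`:
`φ(1, u(b) s) = φ((u(b) s)⁻¹, 1) = φ(1, 1)`. -/
theorem har_unique {c : ℂ} {φ φ' : GA Fq → ℂ} (h : Har c φ) (h' : Har c φ')
    (hk : ∀ k ∈ KN (1 : Fq[X]), ∀ x, φ (x * inF k) = φ x)
    (hk' : ∀ k ∈ KN (1 : Fq[X]), ∀ x, φ' (x * inF k) = φ' x) : φ = φ' := by
  sorry

/-- The space of harmonic functions (up to constants) of level `N`. -/
def harN (N : Fq[X]) : Submodule ℂ (GA Fq → ℂ) where
  carrier := {φ | (∃ c : ℂ, Har c φ) ∧ ∀ k ∈ KN N, ∀ x, φ (x * inF k) = φ x}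
  add_mem' := by sorry
  zero_mem' := by sorry
  smul_mem' := by sorry

/-- The map `φ ↦ (c, (φ(k, 1))_{k ∈ GL₂(Ô)/KN N})` is injective on `harN N` by `har_zero`. -/
theorem harN_finite {N : Fq[X]} (hN : N ≠ 0) : FiniteDimensional ℂ (harN N) := by
  sorry

end Pool.Agent.T2H71.LL
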