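import Pool.Agent.T2H71.LL.Struct

/-! PACKAGE H: the non-cuspidal form. -/

open IsDedekindDomain Polynomial
open scoped WithZero

noncomputable section

namespace Pool.Agent.T2H71.LL

variable {Fq : Type} [Field Fq] [Fintype Fq]

/-- Proof: by `structV`, `structV_unique` every `x` has a well defined `n(x) : ℕ`
(`x = γ (k, t_n κ)`), invariant under left `GL₂(K)`, right `GL₂(Ô)` and right `KZ`.  Let
`φ : ℕ → ℂ`, `φ 0 = 0`, `φ 1 = 1`, `φ (n+2) = (q+1) φ (n+1) - q φ n + (q+1)`, `Φ x = φ (n(x))`,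
`f x = Φ (x w) - Φ x`.  Then `f (x w) = Φ (x w²) - Φ (x w) = - f x` (`w² ∈ Z`), `f` is right
`IZ`-invariant as `w` normalises `IZ`.  The sum `f x + ∑_b f (x u(b) s)` is
`∑_κ Φ(x κ w) - (q+1) Φ(x)`, the sum over the `q + 1` representatives; by `sum_reps`
(for `x = γ (k, t_n κ₀)`) it is `∑_κ Φ(k, t_n κ w) - (q+1) φ n`, and `t_n w` is the vertex
`t_{n+1}`: `w = t_1 s` up to `Z` and `s ∈ K`;  `t_n u(b) s w = u(b T^n) t_n s w = u(b T^n) t_{n-1}`
exactly (`s w = t_{-1}`), the vertex `t_{n-1}` for `n ≥ 1`, and for `n = 0` `t_{-1} ~ s t_1 s ~ t_1`.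
So the sum is `φ (n+1) + q φ (n-1) - (q+1) φ n = q + 1` for `n ≥ 1` and
`(q+1) φ 1 - (q+1) φ 0 = q+1` for `n = 0`. -/
theorem exists_eis :
    ∃ f : GA Fq → ℂ, Har ((Fintype.card Fq : ℂ) + 1) f ∧
      ∀ k ∈ KN (1 : Fq[X]), ∀ x, f (x * inF k) = f x := by
  sorry

end Pool.Agent.T2H71.LL
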