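import Pool.Agent.T2H71.LL.Basic

/-! PACKAGE C: elementary facts on `Kinf = 𝔽_q((1/T))`. -/

open IsDedekindDomain Polynomial
open scoped WithZero

noncomputable section

namespace Pool.Agent.T2H71.LL

variable {Fq : Type} [Field Fq]

theorem v_algInf (r : RatFunc Fq) :
    Valued.v (algebraMap (RatFunc Fq) (Kinf Fq) r) =
      @RatFunc.inftyValuation Fq _ (Classical.decEq _) r := by
  sorry

theorem v_pi (p : Fq[X]) (hp : p ≠ 0) :
    Valued.v (pi p) = (WithZero.exp (p.natDegree : ℤ) : ℤᵐ⁰) := by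
  sorry

theorem v_Tp : Valued.v (Tp : Kinf Fq) = (WithZero.exp (1 : ℤ) : ℤᵐ⁰) := by
  sorry

theorem v_ci (c : Fq) (hc : c ≠ 0) : Valued.v (ci c) = (1 : ℤᵐ⁰) := by
  sorry

/-- A polynomial of absolute value `< 1` is zero. -/
theorem poly_eq_zero (p : Fq[X]) (h : Valued.v (pi p) < (1 : ℤᵐ⁰)) : p = 0 := by
  sorry

/-- A polynomial of absolute value `≤ 1` is constant. -/
theorem poly_eq_C (p : Fq[X]) (h : Valued.v (pi p) ≤ (1 : ℤᵐ⁰)) : ∃ c : Fq, p = C c := by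
  sorry

/-- `Kinf = 𝔽_q[T] + {|x| < 1}`: approximate `x` by a rational function `f / g` and divide with
remainder. -/
theorem exists_poly_sub (x : Kinf Fq) : ∃ p : Fq[X], Valued.v (x - pi p) < (1 : ℤᵐ⁰) := by
  sorry

/-- Residues: `O = 𝔽_q + {|x| < 1}`. -/
theorem exists_const_sub (x : Kinf Fq) (hx : Valued.v x ≤ (1 : ℤᵐ⁰)) :
    ∃ c : Fq, Valued.v (x - ci c) < (1 : ℤᵐ⁰) := by
  sorry

/-- Every nonzero element is a unit times a power of `T`. -/
theorem exists_zpow (x : Kinf Fq) (hx : x ≠ 0) :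
    ∃ (r : ℤ) (u : Kinf Fq), Valued.v u = (1 : ℤᵐ⁰) ∧ x = Tp ^ r * u := by
  sorry

end Pool.Agent.T2H71.LL
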