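import Pool.Agent.T2H71.LL.Levels

/-! PACKAGE D1: `GL₂(Kinf)`: groups and relations. -/

open IsDedekindDomain Polynomial
open scoped WithZero

noncomputable section

namespace Pool.Agent.T2H71.LL

variable {Fq : Type} [Field Fq]

/-! ### `IZ` is a group normalised by `w` -/

theorem IZ_one : (1 : Ginf Fq) ∈ IZ := by sorry

theorem IZ_mul {g h : Ginf Fq} (hg : g ∈ IZ) (hh : h ∈ IZ) : g * h ∈ IZ := by sorry

theorem IZ_inv {g : Ginf Fq} (hg : g ∈ IZ) : g⁻¹ ∈ IZ := by sorry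

theorem IZ_conj {g : Ginf Fq} (hg : g ∈ IZ) : wI⁻¹ * g * wI ∈ IZ := by sorry

theorem IZ_conj' {g : Ginf Fq} (hg : g ∈ IZ) : wI * g * wI⁻¹ ∈ IZ := by sorry

/-- `w² = 1/T` is central. -/
theorem wI_sq : (wI : Ginf Fq) * wI ∈ IZ := by sorry

theorem uI_mem {b : Kinf Fq} (hb : Valued.v b ≤ (1 : ℤᵐ⁰)) : uI b ∈ IZ := by sorry

/-! ### Relations -/

/-- `t_r u(b) = u(T^r b) t_r`. -/
theorem tI_uI (r : ℤ) (b : Kinf Fq) : tI r * uI b = uI (Tp ^ r * b) * tI r := by sorry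

theorem tI_add (r r' : ℤ) : (tI (r + r') : Ginf Fq) = tI r * tI r' := by sorry

theorem uI_add (b b' : Kinf Fq) : uI (b + b') = uI b * uI b' := by sorry

/-- `s = t_{-1} w⁻¹`. -/
theorem sI_eq : (sI : Ginf Fq) = tI (-1) * wI⁻¹ := by sorry

/-- `w t_r w⁻¹ = T^r t_{-r}` up to the scalar `T^r`: it is `t_{-r}` times an element of `Z`. -/
theorem wI_tI (r : ℤ) : ∃ z ∈ (IZ : Set (Ginf Fq)), (wI : Ginf Fq) * tI r * wI⁻¹ = tI (-r) * z := by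
  sorry

/-! ### `Z GL₂(O)` -/

theorem Km_sub_KZ {κ : Ginf Fq} (hκ : κ ∈ Km Fq 0) : κ ∈ KZ := by sorry

theorem IZ_sub_KZ {κ : Ginf Fq} (hκ : κ ∈ IZ) : κ ∈ KZ := by sorry

theorem KZ_mul {g h : Ginf Fq} (hg : g ∈ KZ) (hh : h ∈ KZ) : g * h ∈ KZ := by sorry

theorem KZ_inv {g : Ginf Fq} (hg : g ∈ KZ) : g⁻¹ ∈ KZ := by sorry

/-- `w⁻¹ (s u(c) s) w = u(c T)`. -/
theorem w_lower (c : Fq) :
    (wI : Ginf Fq)⁻¹ * (sI * uI (ci c) * sI) * wI = uI (pi (C c * X)) := by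
  sorry

end Pool.Agent.T2H71.LL
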