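import Pool.Agent.T2H71.LL.Adele
import Pool.Agent.T2H71.LL.Infty

/-! PACKAGE B: congruence subgroups. -/

open IsDedekindDomain Polynomial
open scoped WithZero

noncomputable section

namespace Pool.Agent.T2H71.LL

variable {Fq : Type} [Field Fq]

/-- `congrFin N` as a subgroup. -/
def KN (N : Fq[X]) : Subgroup (Gf Fq) where
  carrier := congrFin N
  mul_mem' := by sorry
  one_mem' := by sorry
  inv_mem' := by sorry

/-- `congr m` as a subgroup. -/
def Km (Fq : Type) [Field Fq] (m : ℕ) : Subgroup (Ginf Fq) where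
  carrier := congr (Kinf Fq) m
  mul_mem' := by sorry
  one_mem' := by sorry
  inv_mem' := by sorry

theorem mem_KN {N : Fq[X]} {g : Gf Fq} : g ∈ KN N ↔ g ∈ congrFin N := Iff.rfl

theorem mem_Km {m : ℕ} {g : Ginf Fq} : g ∈ Km Fq m ↔ g ∈ congr (Kinf Fq) m := Iff.rfl

/-- The Iwahori subgroup. -/
def IwS (Fq : Type) [Field Fq] : Subgroup (Ginf Fq) where
  carrier := Iw
  mul_mem' := by sorry
  one_mem' := by sorry
  inv_mem' := by sorry

theorem mem_IwS {g : Ginf Fq} : g ∈ IwS Fq ↔ g ∈ Iw := Iff.rfl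

theorem Iw_sub_congr : (Iw : Set (Ginf Fq)) ⊆ congr (Kinf Fq) 0 := by
  sorry

theorem congr_sub_Iw {m : ℕ} (hm : 1 ≤ m) : congr (Kinf Fq) m ⊆ Iw := by
  sorry

theorem Km_anti {m m' : ℕ} (h : m ≤ m') : Km Fq m' ≤ Km Fq m := by
  sorry

theorem KN_mul_le (N M : Fq[X]) : KN (N * M) ≤ KN N := by
  sorry

/-- `Ô / N Ô` is finite (representatives: polynomials of degree `< deg N`, by `approx`). -/
theorem KN_finiteIndex [Finite Fq] {N : Fq[X]} (hN : N ≠ 0) :
    ((KN N).subgroupOf (KN 1)).FiniteIndex := by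
  sorry

theorem Km_finiteIndex [Finite Fq] (m : ℕ) : ((Km Fq m).subgroupOf (Km Fq 0)).FiniteIndex := by
  sorry

theorem KN_normal {N : Fq[X]} {k u : Gf Fq} (hk : k ∈ KN 1) (hu : u ∈ KN N) :
    k * u * k⁻¹ ∈ KN N := by
  sorry

theorem Km_normal {m : ℕ} {k u : Ginf Fq} (hk : k ∈ Km Fq 0) (hu : u ∈ Km Fq m) :
    k * u * k⁻¹ ∈ Km Fq m := by
  sorry

/-- Conjugates of a level subgroup contain a level subgroup (clear the denominators of the
entries of `g` and `g⁻¹`). -/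
theorem level_conj (g : GA Fq) {N : Fq[X]} (hN : N ≠ 0) (m : ℕ) :
    ∃ N' : Fq[X], N' ≠ 0 ∧ ∃ m' : ℕ, ∀ u ∈ level N' m', g⁻¹ * u * g ∈ level N m := by
  sorry

theorem level_inter {N N' : Fq[X]} (m m' : ℕ) :
    level (N * N') (max m m') ⊆ level N m ∩ (level N' m' : Set (GA Fq)) := by
  sorry

end Pool.Agent.T2H71.LL
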