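import Pool.Agent.T2H71.LL.Bruhat
import Pool.Agent.T2H71.LL.Rep

/-! PACKAGE G: vectors of Steinberg type in representations of `GL₂(Kinf)`. -/

open IsDedekindDomain Polynomial
open scoped WithZero

noncomputable section

namespace Pool.Agent.T2H71.LL

variable {Fq : Type} [Field Fq] [Fintype Fq]

/-- A Steinberg vector: fixed by `Z I`, `w v = -v`, and the sum over `GL₂(O)/I` is `0`. -/
structure StVec {V : Type} [AddCommGroup V] [Module ℂ V] (ρ : Representation ℂ (Ginf Fq) V)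
    (v : V) : Prop where
  iz : ∀ i ∈ IZ, ρ i v = v
  w : ρ wI v = -v
  sum : v + ∑ b : Fq, ρ (uI (ci b) * sI) v = 0

/-- The coinvariants of the Iwahori subgroup. -/
def coI {V : Type} [AddCommGroup V] [Module ℂ V] (ρ : Representation ℂ (Ginf Fq) V) :
    Submodule ℂ V :=
  Submodule.span ℂ {y | ∃ i ∈ (Iw : Set (Ginf Fq)), ∃ x, y = ρ i x - x}

/-- Modulo the coinvariants of `I`, `t v` is a universal multiple of `v`.  Proof: let
`t = i t_r ε i'` (`iwahori_bruhat`), so `ρ(t) v ≡ ± ρ(t_r) v` mod `coI` (`ρ(i) y ≡ y`).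
Since `s v = t_{-1} w⁻¹ v = - t_{-1} v` the relation `sum` reads `v = ∑_b u(b) t_{-1} v`; apply
`t_{-r}` (`r ≥ 0`): `t_{-r} v = ∑_b u(b T^{-r}) t_{-r-1} v ≡ q t_{-r-1} v`.  So
`t_{-r} v ≡ q^{-r} v` for `r ≥ 0`.  For `r > 0`: `t_r v = w t_{-r} w⁻¹ v` (up to `Z`)
`= - w t_{-r} v ≡ - q^{-r} w v = q^{-r} v`, because `w` normalises `I`, so it preserves `coI`. -/
theorem loc (t : Ginf Fq) :
    ∃ c : ℂ, ∀ (V : Type) [AddCommGroup V] [Module ℂ V] (ρ : Representation ℂ (Ginf Fq) V) (v : V),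
      StVec ρ v → ρ t v - c • v ∈ coI ρ := by
  sorry

/-- The relation `y = ∑_b u(b) t_{-1} y` iterated, in the form used for admissibility: for
`m ≤ r`, `t_{-m} v = ∑_b u(b T^{-m}) t_{-m-1} v`. -/
theorem StVec.step {V : Type} [AddCommGroup V] [Module ℂ V] {ρ : Representation ℂ (Ginf Fq) V}
    {v : V} (h : StVec ρ v) (r : ℕ) :
    ρ (tI (-(r : ℤ))) v = ∑ b : Fq, ρ (uI (Tp ^ (-(r : ℤ)) * ci b) * tI (-(r : ℤ) - 1)) v := by
  sorry

end Pool.Agent.T2H71.LL
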