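import Mathlib

/-! PACKAGE L1: means of periodic functions on an abelian group. -/

open IsDedekindDomain Polynomial
open scoped WithZero

noncomputable section

namespace Pool.Agent.T2H71.LL

/-! ### Means of periodic functions on an abelian group -/

section

variable {A : Type} [AddCommGroup A]

/-- `ψ` is periodic under a subgroup of finite index and its mean is zero. -/
def MeanZero (ψ : A → ℂ) : Prop :=
  ∃ Q : AddSubgroup A, Q.FiniteIndex ∧ (∀ b ∈ Q, ∀ a, ψ (a + b) = ψ a) ∧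
    ∑ᶠ c : A ⧸ Q, ψ c.out = 0

/-- `ψ` is periodic under a subgroup of finite index. -/
def Periodic' (ψ : A → ℂ) : Prop :=
  ∃ Q : AddSubgroup A, Q.FiniteIndex ∧ ∀ b ∈ Q, ∀ a, ψ (a + b) = ψ a

/-- The mean of `ψ` (if it is `Periodic'`). -/
def mean (ψ : A → ℂ) : ℂ := by
  classical
  exact if h : Periodic' ψ then
    (∑ᶠ c : A ⧸ h.choose, ψ c.out) / (h.choose.index : ℂ) else 0

/-- The mean can be computed with any subgroup of periods of finite index. -/
theorem mean_eq {ψ : A → ℂ} (Q : AddSubgroup A) (hQ : Q.FiniteIndex)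
    (hper : ∀ b ∈ Q, ∀ a, ψ (a + b) = ψ a) :
    mean ψ = (∑ᶠ c : A ⧸ Q, ψ c.out) / (Q.index : ℂ) := by
  sorry

theorem meanZero_iff {ψ : A → ℂ} (h : Periodic' ψ) : MeanZero ψ ↔ mean ψ = 0 := by
  sorry

theorem Periodic'.add {ψ ψ' : A → ℂ} (h : Periodic' ψ) (h' : Periodic' ψ') :
    Periodic' (ψ + ψ') := by
  sorry

theorem Periodic'.smul {ψ : A → ℂ} (h : Periodic' ψ) (c : ℂ) : Periodic' (c • ψ) := by
  sorry

theorem mean_add {ψ ψ' : A → ℂ} (h : Periodic' ψ) (h' : Periodic' ψ') :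
    mean (ψ + ψ') = mean ψ + mean ψ' := by
  sorry

theorem mean_smul {ψ : A → ℂ} (h : Periodic' ψ) (c : ℂ) : mean (c • ψ) = c * mean ψ := by
  sorry

/-- Translation and automorphism invariance. -/
theorem mean_comp {ψ : A → ℂ} (h : Periodic' ψ) (θ : A ≃+ A) (b : A) :
    Periodic' (fun a => ψ (θ a + b)) ∧ mean (fun a => ψ (θ a + b)) = mean ψ := by
  sorry

end

end Pool.Agent.T2H71.LL
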