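import Pool.Agent.T2H71.LL.Struct
import Pool.Agent.T2H71.LL.Mean

/-! PACKAGE L2: periodicity. -/

open IsDedekindDomain Polynomial
open scoped WithZero

noncomputable section

namespace Pool.Agent.T2H71.LL

variable {Fq : Type} [Field Fq] [Fintype Fq]

/-- The subgroup `K + N Ô × {|x| < |T|^j}` of `𝔸 = Af × Kinf`. -/
def perQ (N : Fq[X]) (j : ℤ) : AddSubgroup (Af Fq × Kinf Fq) where
  carrier := {a | ∃ (r : RatFunc Fq) (o : Af Fq) (y : Kinf Fq),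
    (∀ v : HeightOneSpectrum Fq[X],
      Valued.v (o v) ≤ v.valuation (RatFunc Fq) (algebraMap Fq[X] (RatFunc Fq) N)) ∧
    Valued.v y < (WithZero.exp j : ℤᵐ⁰) ∧
    a = (algebraMap (RatFunc Fq) (Af Fq) r + o, algebraMap (RatFunc Fq) (Kinf Fq) r + y)}
  add_mem' := by sorry
  zero_mem' := by sorry
  neg_mem' := by sorry

/-- It has finite index: `𝔸 = K + Ô × {|x| < 1}` (`exists_add_int`, `exists_poly_sub`; polynomials
are in `Ô`), and `Ô / N Ô`, `{|x| < 1} / {|x| < |T|^j}` are finite. -/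
theorem perQ_finiteIndex {N : Fq[X]} (hN : N ≠ 0) (j : ℤ) : (perQ N j).FiniteIndex := by
  sorry

/-- `𝔸 = K + Ô × {|x| < 1}`. -/
theorem adele_split (a : Af Fq × Kinf Fq) :
    ∃ (r : RatFunc Fq) (o : Af Fq) (y : Kinf Fq),
      (∀ v : HeightOneSpectrum Fq[X], Valued.v (o v) ≤ (1 : ℤᵐ⁰)) ∧
      Valued.v y < (1 : ℤᵐ⁰) ∧
      a = (algebraMap (RatFunc Fq) (Af Fq) r + o, algebraMap (RatFunc Fq) (Kinf Fq) r + y) := by
  sorry

/-- For `f` harmonic of level `N₀` and `x ∈ GL₂(𝔸)`, `a ↦ f (n(a) x)` is periodic.  By `structB`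
`x = γ (k, u(y) t_m ε i)` with `γ = (α, β; 0, δ)`, and `n(a) γ = γ n(δ a / α)`, so
`f (n(a) x) = f (n(δ a / α + (0, y)) (k, t_m ε))`; the function `a ↦ f (n(a) (k, t_m ε))` is
periodic under `perQ N₀ j` with `j = m` for `ε = 1` and `j = m - 1` for `ε = w` (or smaller):
`n(b) (k, t_m) = (k k⁻¹ n(b_f) k, t_m u(T^{-m} b_∞))`. -/
theorem periodic_of_har {f : GA Fq → ℂ} (hf : Har 0 f) {N₀ : Fq[X]} (hN₀ : N₀ ≠ 0)
    (hK : ∀ k ∈ KN N₀, ∀ x, f (x * inF k) = f x) (x : GA Fq) :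
    Periodic' (fun a => f (un a * x)) := by
  sorry

end Pool.Agent.T2H71.LL
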