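import Pool.Agent.T2H71.LL.Bruhat

/-! PACKAGE E1: `GL₂(𝔽_q[T]) \ GL₂(Kinf) / (Z GL₂(O))` is a half line. -/

open IsDedekindDomain Polynomial
open scoped WithZero

noncomputable section

namespace Pool.Agent.T2H71.LL

variable {Fq : Type} [Field Fq]

/-- The upper triangular unipotent matrix in `GL₂(K)` with a polynomial entry. -/
def uK (p : Fq[X]) : GL (Fin 2) Fq[X] :=
  ⟨!![1, p; 0, 1], !![1, -p; 0, 1], by
    ext i j; fin_cases i <;> fin_cases j <;> simp [Matrix.mul_apply, Fin.sum_univ_two],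
    by
    ext i j; fin_cases i <;> fin_cases j <;> simp [Matrix.mul_apply, Fin.sum_univ_two]⟩

theorem gi_uK (p : Fq[X]) : gi (uK p) = uI (pi p) := by sorry

theorem gi_one : gi (1 : GL (Fin 2) Fq[X]) = 1 := by sorry

theorem gi_mul (γ δ : GL (Fin 2) Fq[X]) : gi (γ * δ) = gi γ * gi δ := by sorry

/-- The finite part of an element of `GL₂(𝔽_q[T])` lies in `GL₂(Ô)`. -/
theorem fin_mem (γ : GL (Fin 2) Fq[X]) :
    Matrix.GeneralLinearGroup.map (algebraMap (RatFunc Fq) (Af Fq)) (gK γ) ∈ KN (1 : Fq[X]) := by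
  sorry

/-- The diagonal embedding of `γ ∈ GL₂(𝔽_q[T])`: finite part and infinite part. -/
theorem dg_gK (γ : GL (Fin 2) Fq[X]) :
    dg (gK γ) = (Matrix.GeneralLinearGroup.map (algebraMap (RatFunc Fq) (Af Fq)) (gK γ), gi γ) := by
  sorry

/-- Conversely `GL₂(K) ∩ GL₂(Ô) = GL₂(𝔽_q[T])`. -/
theorem exists_gK (γ : GL (Fin 2) (RatFunc Fq))
    (h : Matrix.GeneralLinearGroup.map (algebraMap (RatFunc Fq) (Af Fq)) γ ∈ KN (1 : Fq[X])) :
    ∃ δ : GL (Fin 2) Fq[X], gK δ = γ := by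
  sorry

/-- Reduction theory: `GL₂(Kinf) = ⋃_{n ≥ 0} GL₂(𝔽_q[T]) t_n Z GL₂(O)`.  Proof: by `iwasawa`,
`t = u(y) t_r κ`; subtracting a polynomial from `y` we may assume `|y| < 1`.  If `r ≥ 0` then
`u(y) t_r = t_r u(T^{-r} y)` and we are done.  If `r < 0` and `|y| ≤ |T^r|` then
`u(y) t_r ∈ t_r K` and `t_r = s t_{-r} s` up to `Z`.  If `|T^r| < |y| < 1` then
`s u(y) t_r ∈ u(y') t_{r'} Z GL₂(O)` with `|T^{r'}| = |T^r| / |y|² ` (the determinant divided by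
the square of the maximum of the bottom row `(T^r, y)`), so `r' ≥ r + 2`; induction on `-r`. -/
theorem ray (t : Ginf Fq) :
    ∃ (γ : GL (Fin 2) Fq[X]) (n : ℕ), ∃ κ ∈ (KZ : Set (Ginf Fq)), t = gi γ * tI n * κ := by
  sorry

/-- The vertices `t_n` are inequivalent. With `γ t_n = t_{n'} κ`: `κ` has entries
`a T^{n-n'}, b T^{-n'}, c T^n, d` (`γ = (a, b; c, d)`), all of absolute value `≤ r`, and
`r² = |T|^{n-n'}`.  If `n + n' > 0` then `|c| < 1`, `c = 0`, so `|a| = |d| = 1` and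
`n' ≤ n ≤ n'`. -/
theorem ray_unique (γ : GL (Fin 2) Fq[X]) (n n' : ℕ) (κ : Ginf Fq) (hκ : κ ∈ KZ)
    (h : gi γ * tI n = tI n' * κ) : n = n' := by
  sorry

end Pool.Agent.T2H71.LL
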