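import Pool.Agent.T2H71.LL.Ray
import Pool.Agent.T2H71.LL.DecompFin

/-! PACKAGE E2: structure of `GL₂(K) \ GL₂(𝔸)`. -/

open IsDedekindDomain Polynomial
open scoped WithZero

noncomputable section

namespace Pool.Agent.T2H71.LL

variable {Fq : Type} [Field Fq]

/-- Structure of `GL₂(K) \ GL₂(𝔸)` (vertices). -/
theorem structV (x : GA Fq) :
    ∃ (γ : GL (Fin 2) (RatFunc Fq)), ∃ k ∈ KN (1 : Fq[X]), ∃ (n : ℕ),
      ∃ κ ∈ (KZ : Set (Ginf Fq)), x = dg γ * (k, tI n * κ) := by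
  sorry

/-- Uniqueness of `n` in `structV`. -/
theorem structV_unique (γ : GL (Fin 2) (RatFunc Fq)) (k k' : Gf Fq) (hk : k ∈ KN (1 : Fq[X]))
    (hk' : k' ∈ KN (1 : Fq[X])) (n n' : ℕ) (κ κ' : Ginf Fq) (hκ : κ ∈ KZ) (hκ' : κ' ∈ KZ)
    (h : dg γ * (k, tI n * κ) = ((k', tI n' * κ') : GA Fq)) : n = n' := by
  sorry

/-- Structure of `GL₂(K) \ GL₂(𝔸)` (oriented edges): by `structV` and `KZ_cover`; if
`κ = u(b) s i` then `t_n u(b) s = u(b T^n) t_n s`, the first factor is in `GL₂(𝔽_q[T])`, and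
`t_n s = t_{n-1} w⁻¹` (for `n = 0`, `s` itself is in `GL₂(𝔽_q[T])`). -/
theorem structE (x : GA Fq) :
    ∃ (γ : GL (Fin 2) (RatFunc Fq)), ∃ k ∈ KN (1 : Fq[X]), ∃ (n : ℕ),
      ∃ i ∈ (IZ : Set (Ginf Fq)),
        x = dg γ * (k, tI n * i) ∨ x = dg γ * (k, tI n * wI * i) := by
  sorry

/-- Structure of `B(K) \ GL₂(𝔸)`. -/
theorem structB (x : GA Fq) :
    ∃ (γ : GL (Fin 2) (RatFunc Fq)), γ.1 1 0 = 0 ∧ ∃ k ∈ KN (1 : Fq[X]), ∃ (y : Kinf Fq) (m : ℤ),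
      ∃ i ∈ (IZ : Set (Ginf Fq)),
        x = dg γ * (k, uI y * tI m * i) ∨ x = dg γ * (k, uI y * tI m * wI * i) := by
  sorry

end Pool.Agent.T2H71.LL
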