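import Pool.Agent.T2H71.LL.Iwahori

/-! PACKAGE D2: sums over `GL₂(O)/I = P¹(𝔽_q)`. -/

open IsDedekindDomain Polynomial
open scoped WithZero

noncomputable section

namespace Pool.Agent.T2H71.LL

variable {Fq : Type} [Field Fq]

/-! ### `GL₂(O) / I` -/

/-- `GL₂(O) = I ∪ ⋃_b u(b) s I`. -/
theorem K_cover {κ : Ginf Fq} (hκ : κ ∈ Km Fq 0) :
    κ ∈ Iw ∨ ∃ b : Fq, ∃ i ∈ Iw, κ = uI (ci b) * sI * i := by
  sorry

/-- The same for `Z GL₂(O)`. -/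
theorem KZ_cover {κ : Ginf Fq} (hκ : κ ∈ KZ) :
    κ ∈ IZ ∨ ∃ b : Fq, ∃ i ∈ IZ, κ = uI (ci b) * sI * i := by
  sorry

/-- The sum of a right `IZ`-invariant function over representatives of `Z GL₂(O) / Z I` is
invariant under left multiplication by `Z GL₂(O)`: for `κ ∈ KZ` the representatives
`κ, κ u(b) s` are, up to right multiplication by `IZ`, a permutation of `1, u(b) s`. -/
theorem sum_reps [Fintype Fq] (ψ : Ginf Fq → ℂ) (hψ : ∀ g, ∀ i ∈ IZ, ψ (g * i) = ψ g)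
    {κ : Ginf Fq} (hκ : κ ∈ KZ) :
    ψ κ + ∑ b : Fq, ψ (κ * (uI (ci b) * sI)) = ψ 1 + ∑ b : Fq, ψ (uI (ci b) * sI) := by
  sorry

/-- The second set of representatives: `s` and the lower unipotents `s u(c) s`. -/
theorem sum_reps_lower [Fintype Fq] (ψ : Ginf Fq → ℂ) (hψ : ∀ g, ∀ i ∈ IZ, ψ (g * i) = ψ g) :
    ψ 1 + ∑ b : Fq, ψ (uI (ci b) * sI) = ψ sI + ∑ c : Fq, ψ (sI * uI (ci c) * sI) := by
  sorry

end Pool.Agent.T2H71.LL
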